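import Mathlib
import Pool.Agent.L5helper44.Thin.Gap
import Pool.Agent.L5helper44.Thin.W15.All

/-!
# The gap above `1/3` for posets of width three with a thin lower end

There is an absolute constant `ε > 0` such that every finite poset `P` of width at most `3` which is not a
direct sum of two nonempty posets, and in which every element with at most `8` elements below it is
incomparable to at most `15` elements, is in the class `𝒟` or has balance constant at least `1/3 + ε`.
The incomparabilities of all the elements with more than `8` elements below them are arbitrary.  In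
particular the `1/3`–`2/3` conjecture, with a uniform gap, holds for all posets of width at most `3` in
which every element is incomparable to at most `15` others.

The proof is by a search tree for the lower end of the poset with a certificate at each leaf; see the
files `L5helper44/Thin`.
-/

set_option autoImplicit false

open Finset

namespace Pool.Agent.Results.MP_33fb9b_co.WidthThreeThinLowerEnd

open Pool.Agent.H13R3.WB Pool.Agent.H931R3.Bal Pool.Agent.R636.BG Pool.Agent.L5helper44.Thin

/-- width of a subposet -/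
lemma width_sub {P : Type} [PartialOrder P] {w : ℕ}
    (h : ∀ A : Finset P, (∀ a ∈ A, ∀ b ∈ A, a ≤ b → a = b) → A.card ≤ w) (D : Set P) :
    ∀ A : Finset {x : P // x ∈ D}, (∀ a ∈ A, ∀ b ∈ A, a ≤ b → a = b) → A.card ≤ w := by
  intro A hA
  have h1 := h (A.map (Function.Embedding.subtype _)) (by
    intro a ha b hb hab
    simp only [Finset.mem_map, Function.Embedding.coe_subtype] at ha hb
    obtain ⟨a', ha', rfl⟩ := ha
    obtain ⟨b', hb', rfl⟩ := hb
    have := hA a' ha' b' hb' hab
    rw [this])
  simpa using h1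

/-- the decomposable case -/
theorem width_of_indec {k w : ℕ} {c : ℝ}
    (h : ∀ (P : Type) [Fintype P] [PartialOrder P] [Nonempty P], Indec P →
      (∀ A : Finset P, (∀ a ∈ A, ∀ b ∈ A, a ≤ b → a = b) → A.card ≤ w) →
      (∀ x : P, Nat.card {y : P // ¬ x ≤ y ∧ ¬ y ≤ x} ≤ k) → InD P ∨ c ≤ balance P) (n : ℕ) :
    ∀ (P : Type) [Fintype P] [PartialOrder P] [Nonempty P], Fintype.card P = n →
      (∀ A : Finset P, (∀ a ∈ A, ∀ b ∈ A, a ≤ b → a = b) → A.card ≤ w) →
      (∀ x : P, Nat.card {y : P // ¬ x ≤ y ∧ ¬ y ≤ x} ≤ k) → InD P ∨ c ≤ balance P := by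
  classical
  induction n using Nat.strong_induction_on with
  | _ n ih =>
    intro P _ _ _ hn hw hth
    by_cases hind : Indec P
    · exact h P hind hw hth
    · unfold Indec at hind
      push Not at hind
      obtain ⟨D, hD1, hD2, hD⟩ := hind
      have n1 : Nonempty {x : P // x ∈ D} := hD1.to_subtype
      have n2 : Nonempty {x : P // x ∈ Dᶜ} := hD2.to_subtype
      have c1 : Fintype.card {x : P // x ∈ D} < n := by
        rw [← hn]
        obtain ⟨b, hb⟩ := hD2
        exact Fintype.card_subtype_lt (x := b) hb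
      have c2 : Fintype.card {x : P // x ∈ Dᶜ} < n := by
        rw [← hn]
        obtain ⟨a, ha⟩ := hD1
        exact Fintype.card_subtype_lt (x := a) (fun h => h ha)
      have g1 := ih _ c1 {x : P // x ∈ D} rfl (width_sub hw D) (thin_sub hth D)
      have g2 := ih _ c2 {x : P // x ∈ Dᶜ} rfl (width_sub hw Dᶜ) (thin_sub hth Dᶜ)
      have g3 := gap_lex g1 g2
      have e := sumIso D hD
      rcases g3 with g3 | g3
      · exact Or.inl (Pool.Agent.H931R3.Bal.InD.iso g3 e.symm)
      · right
        exact g3.trans (balance_iso e.symm)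

theorem result : ∃ ε : ℝ, 0 < ε ∧ ∀ (R : Type) [Fintype R] [PartialOrder R],
    Built (fun P _ => Nonempty P ∧
      (∀ A : Finset P, (∀ a ∈ A, ∀ b ∈ A, a ≤ b → a = b) → A.card ≤ 3) ∧
      ((∀ x : P, Nat.card {y : P // ¬ x ≤ y ∧ ¬ y ≤ x} ≤ 15) ∨
        ((∀ D : Set P, D.Nonempty → Dᶜ.Nonempty → ∃ a ∈ D, ∃ b ∈ Dᶜ, ¬ a < b) ∧
          ((∀ x : P, Nat.card {y : P // y < x} ≤ 8 →
              Nat.card {y : P // ¬ x ≤ y ∧ ¬ y ≤ x} ≤ 15) ∨
            (∀ x : P, Nat.card {y : P // x < y} ≤ 8 →
              Nat.card {y : P // ¬ x ≤ y ∧ ¬ y ≤ x} ≤ 15))))) R →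
      InD R ∨ 1 / 3 + ε ≤ balance R := by
  obtain ⟨ε₁, h1, g1⟩ := low_gap W15.h0 rfl rfl rfl rfl (by norm_num)
  obtain ⟨ε₂, h2, g2⟩ := thin_gap
  set ε : ℝ := min ε₁ (min ε₂ (1 / 200)) with hε
  have m1 : ε ≤ ε₁ := min_le_left _ _
  have m2 : ε ≤ ε₂ := (min_le_right _ _).trans (min_le_left _ _)
  have m3 : ε ≤ 1 / 200 := (min_le_right _ _).trans (min_le_right _ _)
  -- posets with a thin lower end
  have key : ∀ (P : Type) [Fintype P] [PartialOrder P] [Nonempty P], Indec P →
      (∀ A : Finset P, (∀ a ∈ A, ∀ b ∈ A, a ≤ b → a = b) → A.card ≤ 3) →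
      (∀ x : P, Nat.card {y : P // y < x} ≤ 8 → Nat.card {y : P // ¬ x ≤ y ∧ ¬ y ≤ x} ≤ 15) →
      InD P ∨ 1 / 3 + ε ≤ balance P := by
    intro P _ _ _ hind hw hth
    rcases Nat.lt_or_ge (Fintype.card P) 5 with h5 | h5
    · rcases (g2 P).2 (by
        intro x
        have h6 : Nat.card {y : P // ¬ x ≤ y ∧ ¬ y ≤ x} < Fintype.card P := by
          classical
          rw [Nat.card_eq_fintype_card]
          exact Fintype.card_subtype_lt (x := x) (by simp)
        omega) with h6 | h6
      · exact Or.inl h6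
      · right; linarith
    · right
      have h6 := g1 P h5 (by
        intro x hx
        rw [← card_below] at hx
        have := hth x hx
        rw [card_inco] at this
        omega) hind (Or.inr hw)
      linarith
  have hdual : ∀ (P : Type) [PartialOrder P],
      (∀ D : Set P, D.Nonempty → Dᶜ.Nonempty → ∃ a ∈ D, ∃ b ∈ Dᶜ, ¬ a < b) → Indec Pᵒᵈ := by
    intro P _ hind D hD1 hD2
    obtain ⟨a, ha, b, hb, hab⟩ := hind (OrderDual.toDual ⁻¹' Dᶜ) hD2 (by
      obtain ⟨x, hx⟩ := hD1
      exact ⟨x, fun h => h hx⟩)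
    refine ⟨OrderDual.toDual b, ?_, OrderDual.toDual a, ha, ?_⟩
    · by_contra h
      exact hb h
    · intro h
      exact hab (OrderDual.toDual_lt_toDual.1 h)
  refine ⟨ε, lt_min h1 (lt_min h2 (by norm_num)), fun R _ _ hR => ?_⟩
  refine (Built.gap (c := 1 / 3 + ε) (by linarith) ?_ hR).2
  intro P _ _ hP
  obtain ⟨hne, hw, hP⟩ := hP
  refine ⟨hne, ?_⟩
  rcases hP with hP | ⟨hind, hP | hP⟩
  · exact width_of_indec (k := 15) (fun P _ _ _ hi hw ht => key P hi hw fun x _ => ht x) _ P rfl hw hP
  · exact key P hind hw hP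
  · have : Nonempty Pᵒᵈ := hne
    rcases key Pᵒᵈ (hdual P hind) (by
      intro A hA
      have h7 := hw (A.map (OrderDual.ofDual (α := P)).toEmbedding) (by
        intro a ha b hb hab
        simp only [Finset.mem_map, Equiv.coe_toEmbedding] at ha hb
        obtain ⟨a', ha', rfl⟩ := ha
        obtain ⟨b', hb', rfl⟩ := hb
        have := hA b' hb' a' ha' hab
        rw [this])
      simpa using h7) (by
      intro x hx
      have h7 := hP (OrderDual.ofDual x) hx
      refine le_trans (le_of_eq ?_) h7
      apply Nat.card_congr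
      exact Equiv.subtypeEquiv OrderDual.ofDual fun y => and_comm) with h6 | h6
    · exact Or.inl (InD_of_dual h6)
    · right
      rw [← balance_dual P]
      exact h6

end Pool.Agent.Results.MP_33fb9b_co.WidthThreeThinLowerEnd
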